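import Mathlib

set_option autoImplicit false

namespace Pool.Agent.H.MP_4226b8_an

structure IsJBTriple {E : Type} [NormedAddCommGroup E] [NormedSpace ℂ E] (t : E → E → E → E) :
    Prop where
  cont : Continuous fun p : E × E × E => t p.1 p.2.1 p.2.2
  add₁ : ∀ a a' b c, t (a + a') b c = t a b c + t a' b c
  smul₁ : ∀ (z : ℂ) a b c, t (z • a) b c = z • t a b c
  add₂ : ∀ a b b' c, t a (b + b') c = t a b c + t a b' c
  smul₂ : ∀ (z : ℂ) a b c, t a (z • b) c = (starRingEnd ℂ z) • t a b c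
  symm : ∀ a b c, t a b c = t c b a
  jordan : ∀ x y a b c, t x y (t a b c) = t (t x y a) b c - t a (t y x b) c + t a b (t x y c)
  herm : ∀ a, ∃ L : E →L[ℂ] E, (∀ x, L x = t a a x) ∧
    (∀ (s : ℝ) x, ‖NormedSpace.exp (((s : ℂ) * Complex.I) • L) x‖ = ‖x‖) ∧
    ∀ z ∈ spectrum ℂ L, ∃ r : ℝ, 0 ≤ r ∧ z = r
  norm : ∀ a, ‖t a a a‖ = ‖a‖ ^ 3

end Pool.Agent.H.MP_4226b8_an
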