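import Mathlib
import Pool.Agent.H.MP_4226b8_an.Defs
import Pool.Agent.H.MP_ca490d_an.B

set_option autoImplicit false

namespace Pool.Agent.H.MP_4226b8_an

open Set Filter Topology
open scoped ENNReal

noncomputable def rho (A : Type) [CommCStarAlgebra A] : A →ₐ[ℂ] (A →L[ℂ] A) where
  toFun := ContinuousLinearMap.mul ℂ A
  map_one' := by ext; simp
  map_mul' a b := by ext; simp [mul_assoc]
  map_zero' := by simp
  map_add' a b := by simp
  commutes' z := by ext; simp [Algebra.algebraMap_eq_smul_one]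

theorem jb (A : Type) [CommCStarAlgebra A] : IsJBTriple fun a b c : A => a * star b * c where
  cont := by fun_prop
  add₁ a a' b c := by ring
  smul₁ z a b c := by simp
  add₂ a b b' c := by rw [star_add]; ring
  smul₂ z a b c := by simp
  symm a b c := by ring
  jordan x y a b c := by simp only [star_mul', star_star]; ring
  herm a := by
    have hs : IsSelfAdjoint (star a * a) := IsSelfAdjoint.star_mul_self a
    refine ⟨rho A (star a * a), fun x => by simp [rho, mul_comm], fun s x => ?_, fun z hz => ?_⟩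
    · letI : NormedAlgebra ℚ A := NormedAlgebra.restrictScalars ℚ ℂ A
      letI : NormedAlgebra ℚ (A →L[ℂ] A) := NormedAlgebra.restrictScalars ℚ ℂ _
      rw [← map_smul, ← NormedSpace.map_exp (rho A) (ContinuousLinearMap.mul ℂ A).continuous]
      refine CStarRing.norm_mem_unitary_mul x (NormedSpace.exp_mem_unitary_of_mem_skewAdjoint ?_)
      rw [skewAdjoint.mem_iff, star_smul, hs.star_eq]
      simp
    · have h1 := AlgHom.spectrum_apply_subset (rho A) _ hz
      have h2 := hs.mem_spectrum_eq_re h1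
      have h3 : z.re ∈ spectrum ℝ (star a * a) :=
        spectrum.of_algebraMap_mem ℂ ((show z = algebraMap ℝ ℂ z.re from h2) ▸ h1)
      letI := CStarAlgebra.spectralOrder A
      haveI := CStarAlgebra.spectralOrderedRing A
      exact ⟨z.re, spectrum_nonneg_of_nonneg (star_mul_self_nonneg a) h3, h2⟩
  norm a := by
    have h1 : ‖a * star a * a‖ ^ 2 = (‖a‖ ^ 3) ^ 2 := by
      have hs : IsSelfAdjoint (star a * a) := IsSelfAdjoint.star_mul_self a
      have h4 : ‖(star a * a) ^ 2 ^ 2‖ = ‖a‖ ^ 8 := by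
        rw [hs.norm_pow_two_pow, CStarRing.norm_star_mul_self]; ring
      have h5 : ‖a * star a * a‖ ≤ ‖a‖ ^ 3 := by
        calc ‖a * star a * a‖ = ‖a * (star a * a)‖ := by rw [mul_assoc]
          _ ≤ ‖a‖ * ‖star a * a‖ := norm_mul_le _ _
          _ = ‖a‖ ^ 3 := by rw [CStarRing.norm_star_mul_self]; ring
      have h6 : ‖a‖ ^ 4 ≤ ‖a * star a * a‖ * ‖a‖ := by
        have h7 : ‖(star a * a) ^ 2 ^ 1‖ = ‖a‖ ^ 4 := by
          rw [hs.norm_pow_two_pow, CStarRing.norm_star_mul_self]; ring
        rw [← h7, show (star a * a) ^ 2 ^ 1 = a * star a * a * star a by ring]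
        exact (norm_mul_le _ _).trans (by rw [norm_star])
      congr 1
      refine le_antisymm h5 ?_
      rcases eq_or_lt_of_le (norm_nonneg a) with h | h
      · rw [← h]; simp
      · exact le_of_mul_le_mul_right (by linarith) h
    exact (pow_left_inj₀ (norm_nonneg _) (by positivity) two_ne_zero).1 h1

variable {I : Type}

noncomputable def psi (I : Type) :
    StrongDual ℂ (lp (fun _ : I => ℂ) 1) →ₗ[ℂ] lp (fun _ : I => ℂ) ∞ := by
  classical
  exact
    { toFun := fun φ => ⟨fun i => φ (lp.single 1 i 1), memℓp_infty ⟨‖φ‖, by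
        rintro _ ⟨i, rfl⟩
        simpa using φ.le_opNorm (lp.single 1 i 1)⟩⟩
      map_add' := fun _ _ => rfl
      map_smul' := fun _ _ => rfl }

theorem l1_sum (y : lp (fun _ : I => ℂ) 1) : HasSum (fun i => ‖y i‖) ‖y‖ := by
  simpa using lp.hasSum_norm (by simp) y

theorem psi_norm (φ : StrongDual ℂ (lp (fun _ : I => ℂ) 1)) : ‖psi I φ‖ = ‖φ‖ := by
  classical
  refine le_antisymm (lp.norm_le_of_forall_le (norm_nonneg _) fun i => ?_)
    (φ.opNorm_le_bound (norm_nonneg _) fun y => ?_)
  · simpa [psi] using φ.le_opNorm (lp.single 1 i 1)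
  · refine ((lp.hasSum_single ENNReal.one_ne_top y).mapL φ).norm_le_of_bounded
      ((l1_sum y).mul_left _) fun i => ?_
    have : (lp.single 1 i (y i) : lp (fun _ : I => ℂ) 1) = y i • lp.single 1 i 1 := by
      rw [← lp.single_smul]; simp
    rw [this, map_smul, norm_smul, mul_comm]
    refine mul_le_mul_of_nonneg_right ?_ (norm_nonneg _)
    simpa [psi] using lp.norm_apply_le_norm ENNReal.top_ne_zero (psi I φ) i

theorem psi_surj : Function.Surjective (psi I) := by
  classical
  intro x
  have hb : ∀ (y : lp (fun _ : I => ℂ) 1) i, ‖x i * y i‖ ≤ ‖x‖ * ‖y i‖ := fun y i => by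
    rw [norm_mul]
    exact mul_le_mul_of_nonneg_right (lp.norm_apply_le_norm ENNReal.top_ne_zero x i) (norm_nonneg _)
  have hs : ∀ y : lp (fun _ : I => ℂ) 1, Summable fun i => x i * y i := fun y =>
    Summable.of_norm_bounded ((l1_sum y).mul_left ‖x‖).summable (hb y)
  refine ⟨LinearMap.mkContinuous
    { toFun := fun y => ∑' i, x i * y i
      map_add' := fun y z => by simp [mul_add, (hs y).tsum_add (hs z)]
      map_smul' := fun c y => by simp [mul_left_comm _ c, tsum_mul_left] } ‖x‖
    fun y => tsum_of_norm_bounded ((l1_sum y).mul_left _) (hb y), lp.ext (funext fun i => ?_)⟩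
  simp only [psi, LinearMap.coe_mk, AddHom.coe_mk, LinearMap.mkContinuous_apply]
  rw [tsum_eq_single i fun j hj => by simp [lp.single_apply, hj]]
  simp

noncomputable def dualEq (I : Type) :
    StrongDual ℂ (lp (fun _ : I => ℂ) 1) ≃ₗᵢ[ℂ] lp (fun _ : I => ℂ) ∞ :=
  LinearIsometryEquiv.ofSurjective ⟨psi I, psi_norm⟩ psi_surj

end Pool.Agent.H.MP_4226b8_an
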